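import Pool.Agent.V11333.AnoGap

set_option autoImplicit false

open scoped Manifold ContDiff Topology
open Set Filter

namespace Pool.Agent.Results.MP_610fe3_an.GrowthGap

open Pool.Agent.H721R2 Pool.Agent.H789R2.AN

/-- `F` is a finite set of points of the local unstable set of `x` of size `ε` (the backward orbits
of `x` and of each `y ∈ F` stay within distance `ε`), and any two different points of `F` are more
than `δ` apart at some time `0 ≤ k ≤ n`. -/
def IsSpread {M : Type*} [MetricSpace M] (f : M ≃ₜ M) (ε δ : ℝ) (n : ℕ) (x : M)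
    (F : Finset M) : Prop :=
  (∀ y ∈ F, ∀ k : ℕ, dist (f.symm^[k] x) (f.symm^[k] y) ≤ ε) ∧
    ∀ y ∈ F, ∀ z ∈ F, y ≠ z → ∃ k ≤ n, δ < dist (f^[k] y) (f^[k] z)

/-- The growth of the local unstable sets until time `n` varies at most by the factor `R` with the
point: every spread subset of the local unstable set of a point `x` has at most `R` times as many
points as a suitable spread subset of the local unstable set of any other point `y`. -/
def GrowthRatioLE {M : Type*} [MetricSpace M] (f : M ≃ₜ M) (ε δ : ℝ) (n R : ℕ) : Prop :=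
  ∀ (x y : M) (F : Finset M), IsSpread f ε δ n x F →
    ∃ F' : Finset M, IsSpread f ε δ n y F' ∧ F.card ≤ R * F'.card

theorem growthRatioLE_iff {M : Type*} [MetricSpace M] [CompactSpace M] (f : M ≃ₜ M) (ε : ℝ)
    {δ : ℝ} (hδ : 0 < δ) (n R : ℕ) : GrowthRatioLE f ε δ n R ↔
      ∀ x y, Pool.Agent.Y330.G.P f ε δ n x ≤ R * Pool.Agent.Y330.G.P f ε δ n y := by
  constructor
  · intro h x y
    obtain ⟨F, hF, h1⟩ := Pool.Agent.Y330.G.P_att f ε hδ n x
    obtain ⟨F', hF', h2⟩ := h x y F hF
    rw [← h1]
    exact h2.trans (Nat.mul_le_mul_left _ (Pool.Agent.Y330.G.P_le hδ hF'))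
  · intro h x y F hF
    obtain ⟨F', hF', h1⟩ := Pool.Agent.Y330.G.P_att f ε hδ n y
    refine ⟨F', hF', ?_⟩
    rw [h1]
    exact (Pool.Agent.Y330.G.P_le hδ hF).trans (h x y)

/-- **A growth gap decides about the transitivity of Anosov diffeomorphisms.**

Let `f` be a `C¹` Anosov diffeomorphism of a closed connected manifold `M` and let `dist` be any
metric that induces the topology of `M`.  The growth of the local unstable set of a point `x` until
time `n`, at the scales `ε` and `δ`, is the largest number of points in the local unstable set of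
`x` of size `ε` that are pairwise more than `δ` apart at some time `0 ≤ k ≤ n`; the growth of the
local stable sets is the same for `f⁻¹`.  For all small scales the following dichotomy holds.

* If `f` is topologically transitive then the growths at any two points have bounded ratio,
  uniformly in the time and in the points, for the unstable and for the stable sets.
* If `f` is not topologically transitive and the ratio of the growths at any two points until any
  time `k ≤ n` is at most `R` for the unstable sets and at most `R'` for the stable sets, then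
  `R R' ≥ n / B`, with a constant `B` that depends only on `f` and on the scales.

Thus `f` is topologically transitive if and only if both ratios are bounded, and also if and only
if the product of the two (largest until time `n`) ratios is not bounded below by a positive
multiple of `n`. -/
theorem result (E : Type*) [NormedAddCommGroup E] [NormedSpace ℝ E] [FiniteDimensional ℝ E]
    (M : Type*) [MetricSpace M] [CompactSpace M] [ConnectedSpace M]
    [ChartedSpace E M] [IsManifold 𝓘(ℝ, E) ∞ M] (f : Diffeomorph 𝓘(ℝ, E) 𝓘(ℝ, E) M M 1)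
    (Es Eu : ∀ x : M, Submodule ℝ (TangentSpace 𝓘(ℝ, E) x)) (hA : IsAnosov f Es Eu) :
    ∃ r > 0, ∀ ε > 0, ε ≤ r → ∀ δ > 0, δ ≤ r →
      (TopTransitive f → ∃ C : ℕ, ∀ n : ℕ, GrowthRatioLE f.toHomeomorph ε δ n C ∧
        GrowthRatioLE f.toHomeomorph.symm ε δ n C) ∧
      (¬ TopTransitive f → ∃ B : ℕ, ∀ n R R' : ℕ,
        (∀ k ≤ n, GrowthRatioLE f.toHomeomorph ε δ k R) →
        (∀ k ≤ n, GrowthRatioLE f.toHomeomorph.symm ε δ k R') → n ≤ B * (R * R')) := by
  obtain ⟨Y, iY, cY, φ, f', N, c, hφ, hN, hc⟩ := Pool.Agent.Y330.G.exists_model f Es Eu hA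
  obtain ⟨r₁, hr₁, h1⟩ := Pool.Agent.Y330.G.man_growth f Es Eu hA
  obtain ⟨r₂, hr₂, h2⟩ := Pool.Agent.V11333.AnoGap.gap_abs (f := f.toHomeomorph) hφ hN hc
  refine ⟨min r₁ r₂, lt_min hr₁ hr₂, fun ε hε0 hε δ hδ0 hδ => ⟨fun ht => ?_, fun hnt => ?_⟩⟩
  · obtain ⟨⟨C, hC⟩, C', hC'⟩ := (h1 ε hε0 (hε.trans (min_le_left _ _)) δ hδ0
      (hδ.trans (min_le_left _ _))).1 ht
    refine ⟨max C C', fun n => ⟨?_, ?_⟩⟩
    · rw [growthRatioLE_iff _ _ hδ0]
      exact fun x y => (hC n x y).trans (Nat.mul_le_mul_right _ (le_max_left _ _))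
    · rw [growthRatioLE_iff _ _ hδ0]
      exact fun x y => (hC' n x y).trans (Nat.mul_le_mul_right _ (le_max_right _ _))
  · obtain ⟨B, hB⟩ := h2 ε hε0 (hε.trans (min_le_right _ _)) δ hδ0 (hδ.trans (min_le_right _ _)) hnt
    refine ⟨B, fun n R R' hR hR' => hB n R R' ?_ ?_⟩
    · intro k hk
      exact (growthRatioLE_iff _ _ hδ0 _ _).1 (hR k hk)
    · intro k hk
      exact (growthRatioLE_iff _ _ hδ0 _ _).1 (hR' k hk)

end Pool.Agent.Results.MP_610fe3_an.GrowthGap
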