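import Pool.Agent.Y330.G.A9

set_option autoImplicit false

open scoped Manifold ContDiff Topology
open Set Filter

namespace Pool.Agent.Results.MP_610fe3_an.HomogeneousGrowth

open Pool.Agent.H721R2 Pool.Agent.H789R2.AN

/-- `F` is a finite subset of the local unstable set of size `ε` of `x` (the points `y` with
`d(g⁻ᵏ x, g⁻ᵏ y) ≤ ε` for all `k ≥ 0`), and any two different points of `F` are at a distance
greater than `δ` at one of the times `0, …, n`. -/
def Spread {M : Type*} [MetricSpace M] (g : M ≃ₜ M) (ε δ : ℝ) (n : ℕ) (x : M) (F : Finset M) :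
    Prop :=
  (∀ y ∈ F, ∀ k : ℕ, dist (g.symm^[k] x) (g.symm^[k] y) ≤ ε) ∧
    ∀ y ∈ F, ∀ z ∈ F, y ≠ z → ∃ k ≤ n, δ < dist (g^[k] y) (g^[k] z)

/-- The growth of the local unstable set of `x` up to time `n`: the largest number of points of this
set that are pairwise `δ`-separated at one of the times `0, …, n`. -/
noncomputable def growth {M : Type*} [MetricSpace M] (g : M ≃ₜ M) (ε δ : ℝ) (n : ℕ) (x : M) : ℕ :=
  sSup {m | ∃ F : Finset M, Spread g ε δ n x F ∧ F.card = m}

/-- The growth of the local unstable sets of `g` is homogeneous: up to a constant factor the numbers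
`growth g ε δ n x` do not depend on `x`. -/
def Homogeneous {M : Type*} [MetricSpace M] (g : M ≃ₜ M) (ε δ : ℝ) : Prop :=
  ∃ C : ℕ, ∀ n x y, growth g ε δ n x ≤ C * growth g ε δ n y

/-- **Transitivity of an Anosov diffeomorphism is homogeneity of the growth of its leaves.**
Let `f` be a `C¹` Anosov diffeomorphism of a closed connected smooth manifold `M`, with any metric
`d` that induces the topology of `M`.  There is `r > 0` such that for all `ε, δ ∈ (0, r]` the
following are equivalent.
* `f` is topologically transitive.
* The local unstable sets grow homogeneously under `f` and the local stable sets grow homogeneously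
  under `f⁻¹`: there is a constant `C` such that, for all points `x`, `y` and all times `n`, the
  largest number of points of the local unstable set of `x` that are `δ`-separated up to the time `n`
  is at most `C` times the same number for `y`, and the same holds for `f⁻¹` and the local stable
  sets. -/
theorem result (E : Type*) [NormedAddCommGroup E] [NormedSpace ℝ E] [FiniteDimensional ℝ E]
    (M : Type*) [MetricSpace M] [CompactSpace M] [ConnectedSpace M]
    [ChartedSpace E M] [IsManifold 𝓘(ℝ, E) ∞ M] (f : Diffeomorph 𝓘(ℝ, E) 𝓘(ℝ, E) M M 1)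
    (Es Eu : ∀ x : M, Submodule ℝ (TangentSpace 𝓘(ℝ, E) x)) (hA : IsAnosov f Es Eu) :
    ∃ r > 0, ∀ ε > 0, ε ≤ r → ∀ δ > 0, δ ≤ r →
      (TopTransitive f ↔
        Homogeneous f.toHomeomorph ε δ ∧ Homogeneous f.toHomeomorph.symm ε δ) :=
  Pool.Agent.Y330.G.man_growth f Es Eu hA

end Pool.Agent.Results.MP_610fe3_an.HomogeneousGrowth
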