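import Pool.Agent.Y331.EP.Trans

/-!
# Open factors of Anosov diffeomorphisms: transitivity is decided by homoclinic pairs, entropy or periodic points

Let `f` be a `C¹` Anosov diffeomorphism of a closed connected manifold `M` (not assumed to be transitive) and let
`h : M → Y` be a continuous, open and surjective map onto a compact metric space with `h ∘ f = g ∘ h`, where `g` is an
expansive, topologically transitive homeomorphism of `Y` (for instance a transitive Anosov diffeomorphism, and no global
product structure of `g` and no relation between the dimensions is assumed). We prove that `f` is transitive without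
losing entropy if and only if `h` separates the different points that are both forward and backward asymptotic, if and
only if `h` is a (then automatically finite) covering map.

From the starting files: `Pool.Agent.TH289.L` (open extensions with one finite fibre) and `Pool.Agent.Y331.EP` (shadowing
and counting for semiconjugacies).
-/

set_option autoImplicit false

open scoped Manifold ContDiff Topology
open Set Filter

namespace Pool.Agent.Results.MP_610fe3_an.OpenFactors

open Pool.Agent.H721R2 Pool.Agent.H789R2.AN Pool.Agent.TH289 Pool.Agent.TH289.K
open Pool.Agent.Y331.EP

/-- **Open factors.** Let `f` be a `C¹` Anosov diffeomorphism of a closed connected manifold `M`, let `g` be an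
expansive, topologically transitive homeomorphism of the compact metric space `Y`, and let `h` be a continuous open map
of `M` onto `Y` with `h ∘ f = g ∘ h`. The following are equivalent.
* `f` is topologically transitive and `h_top(f) ≤ h_top(g)`.
* `f` is topologically transitive and, for some `C` and infinitely many `n`, the number of the fixed points of `f ^ n`
  is at most `C` times the number of the fixed points of `g ^ n`.
* `f` is topologically transitive and the fibres of `h` are countable.
* `h` takes different values at two different points that are both forward and backward asymptotic under `f`.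
* There is a bound `B` such that, for every `x`, at most `B` points that are both forward and backward asymptotic to `x`
  have the same image as `x`.
* `h` is a covering map.
* `f` is topologically transitive and `h` is a covering map with finite fibres. -/
theorem result (E : Type*) [NormedAddCommGroup E] [NormedSpace ℝ E] [FiniteDimensional ℝ E]
    (M : Type*) [MetricSpace M] [CompactSpace M] [ConnectedSpace M]
    [ChartedSpace E M] [IsManifold 𝓘(ℝ, E) ∞ M] (f : Diffeomorph 𝓘(ℝ, E) 𝓘(ℝ, E) M M 1)
    (Es Eu : ∀ x : M, Submodule ℝ (TangentSpace 𝓘(ℝ, E) x)) (hf : IsAnosov f Es Eu)
    (Y : Type*) [MetricSpace Y] [CompactSpace Y] (g : Y ≃ₜ Y) (hg : Expansive g) (ht : TopTransitive g)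
    (h : C(M, Y)) (hopen : IsOpenMap h) (hsurj : Function.Surjective h) (hfg : ∀ x, h (f x) = g (h x)) :
    List.TFAE [TopTransitive f ∧ Dynamics.coverEntropy f univ ≤ Dynamics.coverEntropy g univ,
      TopTransitive f ∧ ∃ C : ℕ, ∃ᶠ n in atTop,
        {x | f^[n] x = x}.ncard ≤ C * {y | g^[n] y = y}.ncard,
      TopTransitive f ∧ ∀ y, (h ⁻¹' {y}).Countable,
      ∀ x y, h x = h y → Asym f x y → Asym f.symm x y → x = y,
      ∃ B : ℕ, ∀ x, {y | h y = h x ∧ Asym f x y ∧ Asym f.symm x y}.encard ≤ B,
      IsCoveringMap h,
      TopTransitive f ∧ IsCoveringMap h ∧ ∀ y, (h ⁻¹' {y}).Finite] :=
  man_open_trans f Es Eu hf g hg ht h h.continuous hopen hsurj hfg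

end Pool.Agent.Results.MP_610fe3_an.OpenFactors
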