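import Pool.Agent.V1186.PJ.Z

/-!
# Anosov diffeomorphisms: periodic Jacobians, invariant measures and transitivity
-/

set_option autoImplicit false

open scoped Manifold ContDiff Topology ENNReal
open Set Filter MeasureTheory

namespace Pool.Agent.Results.MP_610fe3_an.PeriodicJacobians

open Pool.Agent.H721R2 Pool.Agent.H789R2.AN Pool.Agent.TH289 Pool.Agent.Y321.PJ
open Pool.Agent.V1186.PJ

/-- The Birkhoff sum `∑_{i<n} ψ(fⁱ x)`. -/
def BSum {M : Type*} (f : M → M) (ψ : M → ℝ) (n : ℕ) (x : M) : ℝ :=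
  ∑ i ∈ Finset.range n, ψ (f^[i] x)

/-- **Periodic Jacobians decide about transitivity and about invariant measures.**
Let `f` be a `C¹` Anosov diffeomorphism of a closed connected manifold `M`; `f` is NOT assumed to be
transitive.

(I) Let `μ` be any finite Borel measure on `M`, positive on nonempty open sets, with
`μ(f(B)) = ∫_B exp(ψ) dμ` for all Borel sets `B`, where `ψ` is locally Hölder continuous in the
charts or, more generally, continuous with Bowen's condition.
* The following are equivalent: all sums of `ψ` over periodic orbits are `≤ 0`; they are all `≥ 0`;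
  they are all `0`; the Birkhoff sums of `ψ` are bounded; `f` preserves a measure `ν` with
  `μ ≤ C ν` and `ν ≤ C μ`.
* If `A` is a nonempty closed invariant set containing the unstable sets of its points, and if the
  sums over the periodic orbits in `A` are all `≥ 0`, then `A = M` and `f` is transitive; the same
  holds with stable sets and sums `≤ 0`.  (With `A = M`: each of the five conditions implies
  transitivity.)
* If `f` is not transitive then a dense set of points is forward asymptotic to a finite set of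
  periodic points with negative sums and backward asymptotic to a finite set of periodic points
  with positive sums.

(II) Let `f` be `C²`.  The following are equivalent: `|det Dfⁿ(p)| ≤ 1` whenever `fⁿ(p) = p`;
`|det Dfⁿ(p)| ≥ 1` whenever `fⁿ(p) = p`; `|det Dfⁿ(p)| = 1` whenever `fⁿ(p) = p`; `f` preserves a
finite Borel measure that is comparable with Lebesgue measure in the charts.  Moreover `A = M` and
`f` is transitive as soon as `|det Dfⁿ(p)| ≥ 1` for the periodic points `p` in one nonempty closed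
invariant set `A` that contains the unstable sets of its points, or `|det Dfⁿ(p)| ≤ 1` for those in
one such set with stable sets. -/
theorem result (E : Type*) [NormedAddCommGroup E] [NormedSpace ℝ E] [FiniteDimensional ℝ E]
    (M : Type*) [TopologicalSpace M] [T2Space M] [CompactSpace M] [ConnectedSpace M]
    [ChartedSpace E M] [IsManifold 𝓘(ℝ, E) ∞ M] [MeasurableSpace M] [BorelSpace M]
    (f : Diffeomorph 𝓘(ℝ, E) 𝓘(ℝ, E) M M 1)
    (Es Eu : ∀ x : M, Submodule ℝ (TangentSpace 𝓘(ℝ, E) x)) (hf : IsAnosov f Es Eu) :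
    (∀ (μ : Measure M) [IsFiniteMeasure μ] [μ.IsOpenPosMeasure] (ψ : M → ℝ),
      (Continuous ψ ∧ Bowen f ψ ∨ LocHolder E ψ) →
      (∀ B, MeasurableSet B →
        μ (f '' B) = ∫⁻ x in B, ENNReal.ofReal (Real.exp (ψ x)) ∂μ) →
      List.TFAE [∀ (n : ℕ) (p : M), 1 ≤ n → f^[n] p = p → BSum f ψ n p ≤ 0,
        ∀ (n : ℕ) (p : M), 1 ≤ n → f^[n] p = p → 0 ≤ BSum f ψ n p,
        ∀ (n : ℕ) (p : M), 1 ≤ n → f^[n] p = p → BSum f ψ n p = 0,
        ∃ C : ℝ, ∀ (n : ℕ) (x : M), |BSum f ψ n x| ≤ C,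
        ∃ (ν : Measure M) (C : ℝ), ν.map f = ν ∧ μ ≤ ENNReal.ofReal C • ν ∧
          ν ≤ ENNReal.ofReal C • μ] ∧
      (∀ A : Set M, UnstSat f.toHomeomorph A →
        (∀ (n : ℕ) (p : M), 1 ≤ n → p ∈ A → f^[n] p = p → 0 ≤ BSum f ψ n p) →
        A = univ ∧ TopTransitive f) ∧
      (∀ A : Set M, UnstSat f.symm.toHomeomorph A →
        (∀ (n : ℕ) (p : M), 1 ≤ n → p ∈ A → f^[n] p = p → BSum f ψ n p ≤ 0) →
        A = univ ∧ TopTransitive f) ∧
      (¬ TopTransitive f → ∃ (n : ℕ) (P Q : Set M), 1 ≤ n ∧ P.Finite ∧ Q.Finite ∧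
        (∀ p ∈ P, f^[n] p = p ∧ BSum f ψ n p < 0) ∧
        (∀ q ∈ Q, f^[n] q = q ∧ 0 < BSum f ψ n q) ∧
        Dense {x : M | (∃ p ∈ P, Tendsto (fun k : ℕ => f^[n * k] x) atTop (𝓝 p)) ∧
          ∃ q ∈ Q, Tendsto (fun k : ℕ => f.symm^[n * k] x) atTop (𝓝 q)})) ∧
    (ContMDiff 𝓘(ℝ, E) 𝓘(ℝ, E) 2 f → ContMDiff 𝓘(ℝ, E) 𝓘(ℝ, E) 2 f.symm →
      ∀ [MeasurableSpace E] [BorelSpace E] (m : Measure E) [m.IsAddHaarMeasure],
      List.TFAE [∀ (n : ℕ) (p : M), 1 ≤ n → f^[n] p = p → perJac E f n p ≤ 1,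
        ∀ (n : ℕ) (p : M), 1 ≤ n → f^[n] p = p → 1 ≤ perJac E f n p,
        ∀ (n : ℕ) (p : M), 1 ≤ n → f^[n] p = p → perJac E f n p = 1,
        ∃ ν : Measure M, IsFiniteMeasure ν ∧ ν.map f = ν ∧ VolumeLike m ν] ∧
      (∀ A : Set M, UnstSat f.toHomeomorph A →
        (∀ (n : ℕ) (p : M), 1 ≤ n → p ∈ A → f^[n] p = p → 1 ≤ perJac E f n p) →
        A = univ ∧ TopTransitive f) ∧
      (∀ A : Set M, UnstSat f.symm.toHomeomorph A →
        (∀ (n : ℕ) (p : M), 1 ≤ n → p ∈ A → f^[n] p = p → perJac E f n p ≤ 1) →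
        A = univ ∧ TopTransitive f)) :=
  ⟨fun μ _ _ ψ hψ hμ => man_main f Es Eu hf μ ψ hψ hμ,
    fun h2 h2' _ _ m _ => man_smooth f h2 h2' Es Eu hf m⟩

end Pool.Agent.Results.MP_610fe3_an.PeriodicJacobians
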